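import Mathlib
import Pool.Agent.H7.Kak3

open MeasureTheory Set
open Pool.Agent.H7.Kak

namespace Pool.Agent.Results.MP_60620c_an.Exists

theorem result : ∃ (S : Set ℝ) (P Q : ℝ → EuclideanSpace ℝ (Fin 2)), S ⊆ cantorSet ∧
    (∀ s ∈ S, dist (P s) (Q s) = 1 ∧ P s 0 ≠ Q s 0 ∧ (Q s 1 - P s 1) / (Q s 0 - P s 0) = s) ∧
    volume (⋃ s ∈ S, segment ℝ (P s) (Q s)) = 0 ∧
    0 < volume (⋃ s ∈ S,
      AffineMap.homothety (midpoint ℝ (P s) (Q s)) (2 : ℝ) '' segment ℝ (P s) (Q s)) ∧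
    ∃ K, IsCompact K ∧ 0 < volume K ∧ K ⊆ ⋃ s ∈ S,
      AffineMap.homothety (midpoint ℝ (P s) (Q s)) (2 : ℝ) '' segment ℝ (P s) (Q s) := by
  obtain ⟨L, cL, h1, h2, h3, h4⟩ := main
  have ex : ∀ s ∈ Prod.fst '' L, ∃ b, (s, b) ∈ L := by
    rintro _ ⟨x, hx, rfl⟩; exact ⟨x.2, hx⟩
  choose! b hb using ex
  let r : ℝ → ℝ := fun s => (√(1 + s ^ 2))⁻¹
  have r0 : ∀ s, 0 < r s := fun s => by positivity
  have r1 : ∀ s, r s ^ 2 * (1 + s ^ 2) = 1 := fun s => by
    simp only [r]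
    rw [inv_pow, Real.sq_sqrt (by positivity), inv_mul_cancel₀ (by positivity)]
  have r2 : ∀ s, r s ≤ 1 := fun s => by
    by_contra h
    push Not at h
    nlinarith [r1 s, sq_nonneg s, mul_nonneg (sq_nonneg (r s)) (sq_nonneg s)]
  have r3 : ∀ s ∈ Icc (0 : ℝ) 1, 6 / 10 ≤ r s := fun s hs => by
    by_contra h
    push Not at h
    have a : r s ^ 2 ≤ 36 / 100 := by nlinarith [r0 s]
    have c : s ^ 2 ≤ 1 := by nlinarith [hs.1, hs.2]
    nlinarith [r1 s, sq_nonneg (r s)]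
  let e : EuclideanSpace ℝ (Fin 2) → ℝ × ℝ := fun x => (x 0, x 1)
  have he : MeasurePreserving e :=
    (volume_preserving_finTwoArrow ℝ).comp (PiLp.volume_preserving_ofLp (Fin 2))
  let P : ℝ → EuclideanSpace ℝ (Fin 2) := fun s => !₂[0, b s]
  let Q : ℝ → EuclideanSpace ℝ (Fin 2) := fun s => !₂[r s, b s + s * r s]
  have c2 := isCompact_sweep cL (-3 / 10) (-2 / 10)
  have fin : ∃ K, IsCompact K ∧ 0 < volume K ∧ K ⊆ ⋃ s ∈ Prod.fst '' L,
      AffineMap.homothety (midpoint ℝ (P s) (Q s)) (2 : ℝ) '' segment ℝ (P s) (Q s) := by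
    refine ⟨e ⁻¹' sweep L (-3 / 10) (-2 / 10), ?_, ?_, ?_⟩
    · have : e ⁻¹' sweep L (-3 / 10) (-2 / 10)
          = (fun p : ℝ × ℝ => (!₂[p.1, p.2] : EuclideanSpace ℝ (Fin 2))) ''
            sweep L (-3 / 10) (-2 / 10) := by
        ext x
        refine ⟨fun h => ⟨_, h, ?_⟩, ?_⟩
        · ext i; fin_cases i <;> simp [e]
        · rintro ⟨p, hp, rfl⟩
          simpa [e] using hp
      rw [this]
      exact c2.image (by fun_prop)
    · rwa [he.measure_preimage c2.measurableSet.nullMeasurableSet]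
    · rintro x ⟨⟨t, s, y⟩, ⟨ht, hx⟩, hh⟩
      have hs : s ∈ Prod.fst '' L := ⟨_, hx, rfl⟩
      obtain rfl : y = b s := congrArg Prod.snd (h2 _ hx _ (hb s hs) rfl)
      have x0 : x 0 = t := (congrArg Prod.fst hh).symm
      have x1 : x 1 = b s + s * t := (congrArg Prod.snd hh).symm
      have a := r3 s (cantorSet_subset_unitInterval (h1 _ hx))
      have a0 := r0 s
      refine mem_biUnion hs ⟨P s + (t / r s / 2 + 1 / 4) • (Q s - P s), ?_, ?_⟩
      · rw [segment_eq_image']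
        refine ⟨_, ⟨?_, ?_⟩, rfl⟩
        · have : -(1 / 2) ≤ t / r s := by rw [le_div_iff₀ a0]; linarith [ht.1]
          linarith
        · have : t / r s ≤ 0 := div_nonpos_of_nonpos_of_nonneg (by linarith [ht.2]) a0.le
          linarith
      · ext i
        fin_cases i <;>
          simp [AffineMap.homothety_apply, midpoint_eq_smul_add, P, Q, x0, x1] <;>
          field_simp <;> ring
  refine ⟨Prod.fst '' L, P, Q, ?_, ?_, ?_, ?_, fin⟩
  · rintro _ ⟨x, hx, rfl⟩; exact h1 x hx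
  · intro s _
    refine ⟨?_, by simpa [P, Q] using (r0 s).ne, ?_⟩
    · rw [EuclideanSpace.dist_eq, Real.sqrt_eq_one]
      simp only [P, Q, Fin.sum_univ_two, Real.dist_eq, sq_abs]
      simp
      linarith [r1 s]
    · simp [P, Q, (r0 s).ne']
  · refine measure_mono_null (t := e ⁻¹' sweep L 0 1) ?_ ?_
    · intro x hx
      obtain ⟨s, hs, hx⟩ := mem_iUnion₂.1 hx
      rw [segment_eq_image'] at hx
      obtain ⟨u, hu, rfl⟩ := hx
      refine ⟨(u * r s, s, b s), ⟨⟨mul_nonneg hu.1 (r0 s).le,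
        mul_le_one₀ hu.2 (r0 s).le (r2 s)⟩, hb s hs⟩, ?_⟩
      simp [e, P, Q]
      ring
    · rwa [he.measure_preimage (isCompact_sweep cL 0 1).measurableSet.nullMeasurableSet]
  · obtain ⟨K, -, k1, k2⟩ := fin
    exact k1.trans_le (measure_mono k2)

end Pool.Agent.Results.MP_60620c_an.Exists
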